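import Pool.Agent.H24R2.DZ.Spec
import Pool.Agent.H24R2.JP.Zeros
import Pool.Agent.W190.C3

/-!
Project SD, task SFar: few zeros far from the critical line, from Carlson's zero density theorem.
-/

set_option autoImplicit false

namespace W327.SD

open Complex Filter Topology MeasureTheory Set
open Pool.Agent.H24R2.JP (XX)
open Pool.Agent.H24R2.DZ
open Pool.Agent.W190 (Dens carlson ZF mem_ZF)
open H353 (FF mu mu_pos)

/-- a zero of `XX` in the right half plane gives a zero of `FF` -/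
theorem FF_of_XX {z : ℂ} (h : XX z = 0) : FF (1 / 2 + z) = 0 := by
  obtain ⟨h1, h2, h3⟩ := Pool.Agent.H24R2.JP.Zer.completed_zero z h
  have h4 : (1 / 2 + z : ℂ) ≠ 1 := fun h0 => h2 (by rw [h0]; ring)
  have h5 : riemannZeta (1 / 2 + z) = 0 := by
    rw [riemannZeta_def_of_ne_zero h1, h3, zero_div]
  have h6 : FF (1 / 2 + z) = (1 / 2 + z - 1) * riemannZeta (1 / 2 + z) := ZU.J_g2b.FF_ne h4
  rw [h6, h5, mul_zero]

theorem sfar : SFar := by
  obtain ⟨C, hC, hD⟩ := carlson (1 / 2 + 1 / 50) (6 / 10000) (by norm_num) (by norm_num)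
    (by norm_num)
  refine ⟨1 / 1000, 2 * (C * 4), 2, by norm_num, by positivity, le_rfl, ?_⟩
  intro T hT
  set S : Finset ℂ := ZF (1 / 2 + 1 / 50) (3 * T - 2) with hS
  have hmem : ∀ ρ : ℂ, ρ ∈ S ↔ FF ρ = 0 ∧ 1 / 2 + 1 / 50 ≤ ρ.re ∧ |ρ.im| ≤ 3 * T + 1 := by
    intro ρ
    rw [hS, mem_ZF]
    have e : 3 * T - 2 + 3 = 3 * T + 1 := by ring
    rw [e]
  have hsub : {t : ℝ | T / 2 ≤ t ∧ t ≤ 3 * T ∧ ∃ z : ℂ, XX z = 0 ∧ 1 / 50 ≤ |z.re| ∧ |z.im - t| ≤ 1} ⊆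
      ⋃ ρ ∈ S, Icc (|ρ.im| - 1) (|ρ.im| + 1) := by
    rintro t ⟨ht1, ht2, z, hz, hre, him⟩
    rw [abs_le] at him
    have him0 : 0 ≤ z.im := by linarith
    simp only [mem_iUnion, exists_prop]
    rcases le_or_gt 0 z.re with h0 | h0
    · rw [abs_of_nonneg h0] at hre
      refine ⟨1 / 2 + z, (hmem _).2 ⟨FF_of_XX hz, ?_, ?_⟩, ?_⟩
      · simp; linarith
      · simp only [add_im, div_ofNat_im, one_im, zero_div, zero_add]
        rw [abs_of_nonneg him0]; linarith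
      · simp only [add_im, div_ofNat_im, one_im, zero_div, zero_add]
        rw [abs_of_nonneg him0]
        constructor <;> linarith
    · rw [abs_of_neg h0] at hre
      have hz' : XX (-z) = 0 := by rw [Pool.Agent.H24R2.JP.Zer.XX_even]; exact hz
      refine ⟨1 / 2 + -z, (hmem _).2 ⟨FF_of_XX hz', ?_, ?_⟩, ?_⟩
      · simp; linarith
      · simp only [add_im, div_ofNat_im, one_im, zero_div, zero_add, neg_im]
        rw [abs_neg, abs_of_nonneg him0]; linarith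
      · simp only [add_im, div_ofNat_im, one_im, zero_div, zero_add, neg_im]
        rw [abs_neg, abs_of_nonneg him0]
        constructor <;> linarith
  have hsum := hD (3 * T + 1) (by linarith) S (fun ρ hρ => (hmem ρ).1 hρ)
  have hcard : (S.card : ℝ) ≤ ∑ ρ ∈ S, (mu ρ : ℝ) := by
    rw [Finset.card_eq_sum_ones]
    push_cast
    refine Finset.sum_le_sum fun ρ hρ => ?_
    exact_mod_cast mu_pos ρ ((hmem ρ).1 hρ).1
  have hpow : (3 * T + 1) ^ (4 * (1 / 2 + 1 / 50) * (1 - (1 / 2 + 1 / 50)) + 6 / 10000 : ℝ) ≤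
      4 * T ^ (1 - 1 / 1000 : ℝ) := by
    have e : (4 * (1 / 2 + 1 / 50) * (1 - (1 / 2 + 1 / 50)) + 6 / 10000 : ℝ) = 1 - 1 / 1000 := by
      norm_num
    rw [e]
    calc (3 * T + 1) ^ (1 - 1 / 1000 : ℝ) ≤ (4 * T) ^ (1 - 1 / 1000 : ℝ) :=
          Real.rpow_le_rpow (by linarith) (by linarith) (by norm_num)
      _ = 4 ^ (1 - 1 / 1000 : ℝ) * T ^ (1 - 1 / 1000 : ℝ) := Real.mul_rpow (by norm_num) (by linarith)
      _ ≤ 4 ^ (1 : ℝ) * T ^ (1 - 1 / 1000 : ℝ) := by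
          gcongr
          · norm_num
          · norm_num
      _ = 4 * T ^ (1 - 1 / 1000 : ℝ) := by rw [Real.rpow_one]
  have hfin : 2 * (S.card : ℝ) ≤ 2 * (C * 4) * T ^ (1 - 1 / 1000 : ℝ) := by
    have h1 := mul_le_mul_of_nonneg_left hpow hC.le
    linarith
  calc volume {t : ℝ | T / 2 ≤ t ∧ t ≤ 3 * T ∧ ∃ z : ℂ, XX z = 0 ∧ 1 / 50 ≤ |z.re| ∧ |z.im - t| ≤ 1}
      ≤ volume (⋃ ρ ∈ S, Icc (|ρ.im| - 1) (|ρ.im| + 1)) := measure_mono hsub
    _ ≤ ∑ ρ ∈ S, volume (Icc (|ρ.im| - 1) (|ρ.im| + 1)) := measure_biUnion_finset_le S _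
    _ = ∑ ρ ∈ S, ENNReal.ofReal 2 := by
        refine Finset.sum_congr rfl fun ρ _ => ?_
        rw [Real.volume_Icc]
        congr 1; ring
    _ = ENNReal.ofReal (2 * (S.card : ℝ)) := by
        rw [Finset.sum_const, nsmul_eq_mul, mul_comm, ENNReal.ofReal_mul (by norm_num),
          ENNReal.ofReal_natCast]
    _ ≤ _ := ENNReal.ofReal_le_ofReal hfin

end W327.SD
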